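import Mathlib
import Pool.Agent.Work.MP_463270_co.Defs
import Pool.Agent.Work.MP_463270_co.Alternating
import Pool.Agent.Work.MP_463270_co_h24.Final

set_option autoImplicit false

namespace Pool.Agent.Results.MP_463270_co.Counterexample

open Pool.Agent.Work.MP_463270_co

/-- There is an oriented matroid `M` of rank `37` on `40` elements, uniform (all circuits have
`38` elements), which has at least `25338` more `3`-neighborly reorientations than the alternating
oriented matroid `C_37(40)`. -/
theorem result :
    ∃ M : OrientedMatroid (Fin 40), M.HasRank 37 ∧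
      (∀ X ∈ M.circuits, (Finset.univ.filter fun e => X e ≠ 0).card = 38) ∧
      (alternating 37 40).neighborlyCount 3 + 25338 ≤ M.neighborlyCount 3 :=
  ⟨_, Pool.Agent.Work.MP_463270_co_h24.cex_hasRank,
    Pool.Agent.Work.MP_463270_co_h24.cex_uniform, Pool.Agent.Work.MP_463270_co_h24.final⟩

end Pool.Agent.Results.MP_463270_co.Counterexample
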