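import Mathlib
import Pool.Agent.Work.MP_463270_co.Defs
import Pool.Agent.Work.MP_463270_co.Alternating
import Pool.Agent.Work.MP_463270_co.Lower

set_option autoImplicit false

namespace Pool.Agent.Results.MP_463270_co.LargeGroundSet

open Pool.Agent.Work.MP_463270_co

/-- For all integers `r ≥ 3`, `0 ≤ k ≤ ⌊(r - 1) / 2⌋` and `n ≥ 2 (r - k) + 1`, every oriented
matroid `M` of rank `r` on `n` elements has at most as many `k`-neighborly reorientations as
the alternating oriented matroid `C_r(n)`. -/
theorem result (r k n : ℕ) (hr : 3 ≤ r) (hk : k ≤ (r - 1) / 2) (hn : 2 * (r - k) + 1 ≤ n)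
    (E : Type*) [Fintype E] (hE : Fintype.card E = n) (M : OrientedMatroid E)
    (hM : M.HasRank r) :
    M.neighborlyCount k ≤ (alternating r n).neighborlyCount k := by
  refine (M.neighborlyCount_le hM hE (by omega) hn).trans ?_
  obtain ⟨d, rfl⟩ : ∃ d, r = d + 2 * k + 1 := ⟨r - (2 * k + 1), by omega⟩
  obtain ⟨m, rfl⟩ : ∃ m, n = m + 1 := ⟨n - 1, by omega⟩
  have h1 : d + 2 * k + 1 - 2 * k = d + 1 := by omega
  rw [h1, Nat.add_sub_cancel]
  exact le_neighborlyCount_alternating k d m

end Pool.Agent.Results.MP_463270_co.LargeGroundSet
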